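import Pool.Agent.TPair.Core
import Pool.Agent.TQS.P_LP2

set_option autoImplicit false

namespace Pool.Agent.Results.MP_98b56a_co.LivePair

open Finset

/-- The certificate, for families of sets. -/
lemma cert (n : ℕ) (C : Finset (Finset (Fin n))) (hC : ∅ ∉ C)
    (hL : ∀ I : Finset (Fin n), (∃ S ∈ C, Disjoint S I) →
      (∀ v, ∃ S ∈ C, Disjoint S I ∧ v ∉ S) →
      ∃ A ∈ C, ∃ B ∈ C, Disjoint A I ∧ Disjoint B I ∧ Disjoint A B)
    (hN : ∀ A ∈ C, ∀ B ∈ C, ∀ D ∈ C, ¬ (Disjoint A B ∧ Disjoint A D ∧ Disjoint B D))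
    (S : Finset (Fin n)) (hS : S ∈ C) (hc : S.card ≤ 2) :
    (∃ T : Finset (Fin n), T.card ≤ 2 ∧ ∀ S ∈ C, (S ∩ T).Nonempty) ∨
      ∃ W : Finset (Fin n), W.card = 5 ∧ ∀ S ∈ C, 2 ≤ (S ∩ W).card := by
  have hf : Pool.Agent.TPair.LF (fun D : Finset (Fin n) => ∃ M ∈ C, M ⊆ D) := by
    refine ⟨?_, ?_, ?_, ?_⟩
    · rintro A B hAB ⟨M, hM, h⟩
      exact ⟨M, hM, h.trans hAB⟩
    · rintro U ⟨M, hM, hMU⟩ hU
      have hd : ∀ S : Finset (Fin n), Disjoint S Uᶜ ↔ S ⊆ U := fun S => by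
        exact disjoint_compl_right_iff
      obtain ⟨A, hA, B, hB, h1, h2, h3⟩ := hL Uᶜ ⟨M, hM, (hd M).2 hMU⟩ (by
        intro v
        by_cases hv : v ∈ U
        · obtain ⟨E, hE, hEU⟩ := hU v hv
          rw [Finset.subset_erase] at hEU
          exact ⟨E, hE, (hd E).2 hEU.1, hEU.2⟩
        · exact ⟨M, hM, (hd M).2 hMU, fun h => hv (hMU h)⟩)
      exact ⟨A, B, ⟨A, hA, Subset.refl _⟩, ⟨B, hB, Subset.refl _⟩, h3, (hd A).1 h1, (hd B).1 h2⟩
    · rintro A B D ⟨M, hM, hMA⟩ ⟨N, hN', hNB⟩ ⟨P, hP, hPD⟩ h1 h2 h3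
      exact hN M hM N hN' P hP ⟨h1.mono hMA hNB, h2.mono hMA hPD, h3.mono hNB hPD⟩
    · rintro ⟨M, hM, h⟩
      rw [Finset.subset_empty] at h
      exact hC (h ▸ hM)
  rcases Pool.Agent.TPair.cert hf S ⟨S, hS, Subset.refl _⟩ hc with ⟨T, hT, h⟩ | ⟨W, hW, h⟩
  · exact Or.inl ⟨T, hT, fun S hS => h S ⟨S, hS, Subset.refl _⟩⟩
  · exact Or.inr ⟨W, hW, fun S hS => h S ⟨S, hS, Subset.refl _⟩⟩

/-- (1) A family of nonempty sets without three pairwise disjoint members, with a member of size at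
most two, such that every deletion minor with covering number at least two has two disjoint
members, has a cover of size at most two, or there are five points which every member meets at
least twice. (2) Every member of an ideal minimally non-packing clutter with covering number three
has at least three elements. -/
theorem result :
    (∀ (n : ℕ) (C : Finset (Finset (Fin n))), ∅ ∉ C →
      (∀ I : Finset (Fin n), (∃ S ∈ C, Disjoint S I) →
        (∀ v, ∃ S ∈ C, Disjoint S I ∧ v ∉ S) →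
        ∃ A ∈ C, ∃ B ∈ C, Disjoint A I ∧ Disjoint B I ∧ Disjoint A B) →
      (∀ A ∈ C, ∀ B ∈ C, ∀ D ∈ C, ¬ (Disjoint A B ∧ Disjoint A D ∧ Disjoint B D)) →
      (∃ S ∈ C, S.card ≤ 2) →
      (∃ T : Finset (Fin n), T.card ≤ 2 ∧ ∀ S ∈ C, (S ∩ T).Nonempty) ∨
        ∃ W : Finset (Fin n), W.card = 5 ∧ ∀ S ∈ C, 2 ≤ (S ∩ W).card) ∧
    (∀ (n : ℕ) (C : Finset (Finset (Fin n))),
      (∀ A ∈ C, ∀ B ∈ C, A ⊆ B → A = B) →
      (∀ x ∈ Set.extremePoints ℝ
          {x : Fin n → ℝ | (∀ e, 0 ≤ x e) ∧ ∀ S ∈ C, (1 : ℝ) ≤ ∑ e ∈ S, x e},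
          ∀ e, ∃ z : ℤ, x e = (z : ℝ)) →
      ¬ (∅ ∈ C ∨ ∃ T : Finset (Fin n), (∀ S ∈ C, (S ∩ T).Nonempty) ∧
          ∃ P ⊆ C, (∀ A ∈ P, ∀ B ∈ P, A ≠ B → Disjoint A B) ∧ P.card = T.card) →
      (∀ I J : Finset (Fin n), Disjoint I J → (I ∪ J).Nonempty →
        ∀ M : Finset (Finset (Fin n)),
          M = ((C.filter (fun S => Disjoint S I)).image (fun S => S \ J)).filter
                (fun A => ∀ B ∈ (C.filter (fun S => Disjoint S I)).image (fun S => S \ J),
                  B ⊆ A → B = A) →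
          (∅ ∈ M ∨ ∃ T : Finset (Fin n), (∀ S ∈ M, (S ∩ T).Nonempty) ∧
            ∃ P ⊆ M, (∀ A ∈ P, ∀ B ∈ P, A ≠ B → Disjoint A B) ∧ P.card = T.card)) →
      (∃ T : Finset (Fin n), T.card = 3 ∧ ∀ S ∈ C, (S ∩ T).Nonempty) →
      (∀ T : Finset (Fin n), (∀ S ∈ C, (S ∩ T).Nonempty) → 3 ≤ T.card) →
      ∀ S ∈ C, 3 ≤ S.card) := by
  refine ⟨fun n C h1 h2 h3 ⟨S, hS, hc⟩ => cert n C h1 h2 h3 S hS hc, ?_⟩
  intro n C hanti hid hnp hmin hT3 htau S hS
  by_contra hcard
  push Not at hcard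
  have hne : ∅ ∉ C := fun h => hnp (Or.inl h)
  -- every proper deletion minor with covering number at least two has two disjoint members
  have hL1 : ∀ I : Finset (Fin n), I.Nonempty → (∃ S ∈ C, Disjoint S I) →
      (∀ v, ∃ S ∈ C, Disjoint S I ∧ v ∉ S) →
      ∃ A ∈ C, ∃ B ∈ C, Disjoint A I ∧ Disjoint B I ∧ Disjoint A B := by
    intro I hI hex hv
    have hM : ((C.filter (fun S => Disjoint S I)).image (fun S => S \ (∅ : Finset (Fin n)))) =
        C.filter (fun S => Disjoint S I) := by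
      simp
    have hM2 : (C.filter (fun S => Disjoint S I)) =
        ((C.filter (fun S => Disjoint S I)).image (fun S => S \ (∅ : Finset (Fin n)))).filter
        (fun A => ∀ B ∈ (C.filter (fun S => Disjoint S I)).image
          (fun S => S \ (∅ : Finset (Fin n))), B ⊆ A → B = A) := by
      rw [hM]
      symm
      apply Finset.filter_true_of_mem
      intro A hA B hB hBA
      exact hanti B (Finset.mem_filter.1 hB).1 A (Finset.mem_filter.1 hA).1 hBA
    rcases hmin I ∅ (Finset.disjoint_empty_right _) (by simpa using hI) _ hM2 with h | h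
    · exact absurd (Finset.mem_filter.1 h).1 hne
    · obtain ⟨T, hT, P, hP, hPd, hPc⟩ := h
      have hT2 : 2 ≤ T.card := by
        by_contra hlt
        push Not at hlt
        have hcases : T.card = 0 ∨ T.card = 1 := by omega
        rcases hcases with h0 | h1
        · obtain ⟨E, hE, hEI⟩ := hex
          have h' := hT E (Finset.mem_filter.2 ⟨hE, hEI⟩)
          rw [Finset.card_eq_zero.1 h0, Finset.inter_empty] at h'
          exact Finset.not_nonempty_empty h'
        · obtain ⟨u, hu⟩ := Finset.card_eq_one.1 h1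
          obtain ⟨E, hE, hEI, huE⟩ := hv u
          obtain ⟨e, he⟩ := hT E (Finset.mem_filter.2 ⟨hE, hEI⟩)
          rw [hu, Finset.mem_inter, Finset.mem_singleton] at he
          exact huE (he.2 ▸ he.1)
      rw [← hPc] at hT2
      obtain ⟨A, hA, B, hB, hAB⟩ := Finset.one_lt_card.1 hT2
      have hA' := Finset.mem_filter.1 (hP hA)
      have hB' := Finset.mem_filter.1 (hP hB)
      exact ⟨A, hA'.1, B, hB'.1, hA'.2, hB'.2, hPd A hA B hB hAB⟩
  have hcov1 : ∀ u v : Fin n, ∃ E ∈ C, u ∉ E ∧ v ∉ E := by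
    intro u v
    by_contra hcon
    push Not at hcon
    have h := htau {u, v} (fun E hE => by
      by_cases hu : u ∈ E
      · exact ⟨u, Finset.mem_inter.2 ⟨hu, by simp⟩⟩
      · exact ⟨v, Finset.mem_inter.2 ⟨hcon E hE hu, by simp⟩⟩)
    have h' : ({u, v} : Finset (Fin n)).card ≤ 2 := Finset.card_le_two
    omega
  have hL : ∀ I : Finset (Fin n), (∃ S ∈ C, Disjoint S I) →
      (∀ v, ∃ S ∈ C, Disjoint S I ∧ v ∉ S) →
      ∃ A ∈ C, ∃ B ∈ C, Disjoint A I ∧ Disjoint B I ∧ Disjoint A B := by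
    intro I hex hv
    rcases Finset.eq_empty_or_nonempty I with rfl | hI
    · have hS0 : S ≠ ∅ := fun h => hne (h ▸ hS)
      obtain ⟨s, hs⟩ := Finset.nonempty_iff_ne_empty.2 hS0
      obtain ⟨A, hA, B, hB, -, -, h⟩ := hL1 {s} (Finset.singleton_nonempty s) (by
          obtain ⟨E, hE, h1, -⟩ := hcov1 s s
          exact ⟨E, hE, Finset.disjoint_singleton_right.2 h1⟩) (by
          intro v
          obtain ⟨E, hE, h1, h2⟩ := hcov1 s v
          exact ⟨E, hE, Finset.disjoint_singleton_right.2 h1, h2⟩)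
      exact ⟨A, hA, B, hB, Finset.disjoint_empty_right _, Finset.disjoint_empty_right _, h⟩
    · exact hL1 I hI hex hv
  have hN : ∀ A ∈ C, ∀ B ∈ C, ∀ D ∈ C, ¬ (Disjoint A B ∧ Disjoint A D ∧ Disjoint B D) := by
    rintro A hA B hB D hD ⟨h1, h2, h3⟩
    obtain ⟨T, hT, hTc⟩ := hT3
    have hAe : A ≠ ∅ := fun h => hne (h ▸ hA)
    have hBe : B ≠ ∅ := fun h => hne (h ▸ hB)
    have hself : ∀ E : Finset (Fin n), Disjoint E E → E = ∅ := fun E h => by
      simpa using h
    have hAB : A ≠ B := fun h => hAe (hself A (h ▸ h1))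
    have hAD : A ≠ D := fun h => hAe (hself A (h ▸ h2))
    have hBD : B ≠ D := fun h => hBe (hself B (h ▸ h3))
    apply hnp
    refine Or.inr ⟨T, hTc, {A, B, D}, ?_, ?_, ?_⟩
    · intro E hE
      simp only [Finset.mem_insert, Finset.mem_singleton] at hE
      rcases hE with rfl | rfl | rfl
      · exact hA
      · exact hB
      · exact hD
    · intro E hE F hF hEF
      simp only [Finset.mem_insert, Finset.mem_singleton] at hE hF
      rcases hE with rfl | rfl | rfl <;> rcases hF with rfl | rfl | rfl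
      · exact absurd rfl hEF
      · exact h1
      · exact h2
      · exact h1.symm
      · exact absurd rfl hEF
      · exact h3
      · exact h2.symm
      · exact h3.symm
      · exact absurd rfl hEF
    · rw [hT, Finset.card_insert_of_notMem, Finset.card_insert_of_notMem, Finset.card_singleton]
      · simpa using hBD
      · simp only [Finset.mem_insert, Finset.mem_singleton, not_or]
        exact ⟨hAB, hAD⟩
  rcases cert n C hne hL hN S hS (by omega) with ⟨T, hT, h⟩ | ⟨W, hW, h⟩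
  · have := htau T h
    omega
  · have hlp := Pool.Agent.TQS.p_LP2 (Fin n) C hid (fun _ => 1) 3 (fun _ => zero_le_one)
      (fun U hU => by
        have h1 := htau U hU
        have h2 : ((3 : ℕ) : ℝ) ≤ (U.card : ℝ) := Nat.cast_le.2 h1
        simpa using h2)
      (fun v => if v ∈ W then (1 / 2 : ℝ) else 0)
      (fun v => by split_ifs <;> norm_num)
      (fun E hE => by
        have h1 := h E hE
        rw [← Finset.sum_filter, Finset.sum_const, nsmul_eq_mul, Finset.filter_mem_eq_inter]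
        have h2 : ((2 : ℕ) : ℝ) ≤ ((E ∩ W).card : ℝ) := Nat.cast_le.2 h1
        push_cast at h2
        linarith)
    have h2 : ∑ v : Fin n, (1 : ℝ) * (if v ∈ W then (1 / 2 : ℝ) else 0) = 5 / 2 := by
      simp only [one_mul]
      rw [← Finset.sum_filter, Finset.sum_const, nsmul_eq_mul, Finset.filter_mem_eq_inter,
        Finset.univ_inter, hW]
      norm_num
    rw [h2] at hlp
    norm_num at hlp

end Pool.Agent.Results.MP_98b56a_co.LivePair
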