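import Pool.Agent.TQS.All
import Pool.Agent.TQS.MNI5

set_option autoImplicit false

namespace Pool.Agent.Results.MP_98b56a_co.PackingProperty

/-- The replication conjecture (the consequence of the tau = 2 conjecture) for all clutters whose
members have at most three elements: the packing property implies the max-flow min-cut property. -/
theorem result :
    ∀ (n : ℕ) (C : Finset (Finset (Fin n))),
      (∀ A ∈ C, ∀ B ∈ C, A ⊆ B → A = B) →
      (∀ S ∈ C, S.card ≤ 3) →
      (∀ I J : Finset (Fin n), Disjoint I J →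
        ∀ M : Finset (Finset (Fin n)),
          M = ((C.filter (fun S => Disjoint S I)).image (fun S => S \ J)).filter
                (fun A => ∀ B ∈ (C.filter (fun S => Disjoint S I)).image (fun S => S \ J),
                  B ⊆ A → B = A) →
          (∅ ∈ M ∨ ∃ T : Finset (Fin n), (∀ S ∈ M, (S ∩ T).Nonempty) ∧
            ∃ P ⊆ M, (∀ A ∈ P, ∀ B ∈ P, A ≠ B → Disjoint A B) ∧ P.card = T.card)) →
      ∅ ∉ C →
      ∀ w : Fin n → ℕ, ∃ (T : Finset (Fin n)) (y : Finset (Fin n) → ℕ),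
        (∀ S ∈ C, (S ∩ T).Nonempty) ∧ ∑ S ∈ C, y S = ∑ v ∈ T, w v ∧
        ∀ v, ∑ S ∈ C with v ∈ S, y S ≤ w v := by
  intro n C _ h3 hpp hne w
  have hM : Pool.Agent.TQS.Meng C :=
    Pool.Agent.TQS.MNI_.pp_meng Pool.Agent.TQS.p_RKG Pool.Agent.TQS.p_LP1 Pool.Agent.TQS.p_QNP
      Pool.Agent.TQS.q_IND h3 hpp
  obtain ⟨T, hT, hmin⟩ := Finset.exists_min_image
    ((Finset.univ : Finset (Finset (Fin n))).filter fun T => ∀ S ∈ C, (S ∩ T).Nonempty)
    (fun T => ∑ v ∈ T, w v) ⟨Finset.univ, by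
      rw [Finset.mem_filter]
      refine ⟨Finset.mem_univ _, fun S hS => ?_⟩
      rw [Finset.inter_univ, Finset.nonempty_iff_ne_empty]
      rintro rfl
      exact hne hS⟩
  rw [Finset.mem_filter] at hT
  obtain ⟨y, hy, hyw⟩ := hM w (∑ v ∈ T, w v) (fun U hU =>
    hmin U (Finset.mem_filter.mpr ⟨Finset.mem_univ _, hU⟩))
  exact ⟨T, y, hT.2, hy, hyw⟩

end Pool.Agent.Results.MP_98b56a_co.PackingProperty
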