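import Pool.Agent.TRed.Step
import Pool.Agent.TRed.Three
import Pool.Agent.TQS.P_LP1
import Pool.Agent.TQS.P_LP2
import Pool.Agent.TQS.P_FRC

set_option autoImplicit false

namespace Pool.Agent.Results.MP_98b56a_co.PairFree

open Finset

/-- `C` is ideal: the extreme points of `{x ≥ 0 : x(S) ≥ 1 for all S in C}` are integral. -/
def Ideal {n : ℕ} (C : Finset (Finset (Fin n))) : Prop :=
  ∀ x ∈ Set.extremePoints ℝ
      {x : Fin n → ℝ | (∀ e, 0 ≤ x e) ∧ ∀ S ∈ C, (1 : ℝ) ≤ ∑ e ∈ S, x e},
    ∀ e, ∃ z : ℤ, x e = (z : ℝ)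

/-- `C` packs. -/
def Packs {n : ℕ} (C : Finset (Finset (Fin n))) : Prop :=
  ∅ ∈ C ∨ ∃ T : Finset (Fin n), (∀ S ∈ C, (S ∩ T).Nonempty) ∧
    ∃ P ⊆ C, (∀ A ∈ P, ∀ B ∈ P, A ≠ B → Disjoint A B) ∧ P.card = T.card

/-- The minor of `C` obtained by deleting `I` and contracting `J`. -/
def Minor {n : ℕ} (C : Finset (Finset (Fin n))) (I J : Finset (Fin n)) :
    Finset (Finset (Fin n)) :=
  ((C.filter (fun S => Disjoint S I)).image (fun S => S \ J)).filter
    (fun A => ∀ B ∈ (C.filter (fun S => Disjoint S I)).image (fun S => S \ J), B ⊆ A → B = A)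

/-- `C` is a counterexample to Q1 (`S10313`): a clutter which is ideal and minimally non-packing and
whose covering number is not two. -/
structure Cex {n : ℕ} (C : Finset (Finset (Fin n))) : Prop where
  clutter : ∀ A ∈ C, ∀ B ∈ C, A ⊆ B → A = B
  ideal : Ideal C
  not_packs : ¬ Packs C
  minors : ∀ I J : Finset (Fin n), Disjoint I J → (I ∪ J).Nonempty → Packs (Minor C I J)
  fail : ¬ ((∃ T : Finset (Fin n), T.card = 2 ∧ ∀ S ∈ C, (S ∩ T).Nonempty) ∧
    ∀ T : Finset (Fin n), (∀ S ∈ C, (S ∩ T).Nonempty) → 2 ≤ T.card)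

/-- The covers of a counterexample have at least three elements. -/
lemma Cex.tau {n : ℕ} {C : Finset (Finset (Fin n))} (h : Cex C) (T : Finset (Fin n))
    (hT : ∀ S ∈ C, (S ∩ T).Nonempty) : 3 ≤ T.card := by
  have htwo : ∀ T : Finset (Fin n), (∀ S ∈ C, (S ∩ T).Nonempty) → 2 ≤ T.card := by
    intro T hT
    by_contra hcon
    apply h.not_packs
    rcases C.eq_empty_or_nonempty with rfl | ⟨S, hS⟩
    · exact Or.inr ⟨∅, fun S hS => absurd hS (Finset.notMem_empty S), ∅, Finset.Subset.refl _,
        fun A hA => absurd hA (Finset.notMem_empty A), rfl⟩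
    · have hT1 : 0 < T.card := by
        rw [Finset.card_pos]
        obtain ⟨e, he⟩ := hT S hS
        exact ⟨e, (Finset.mem_inter.1 he).2⟩
      refine Or.inr ⟨T, hT, {S}, Finset.singleton_subset_iff.2 hS, ?_, ?_⟩
      · intro A hA B hB hAB
        rw [Finset.mem_singleton] at hA hB
        exact absurd (hA.trans hB.symm) hAB
      · rw [Finset.card_singleton]
        omega
  have h5 := htwo T hT
  by_contra h6
  exact h.fail ⟨⟨T, by omega, hT⟩, htwo⟩

lemma minor1 {n : ℕ} (C : Finset (Finset (Fin n))) (I J : Finset (Fin n)) :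
    ∀ A ∈ Minor C I J, ∃ S ∈ C, Disjoint S I ∧ A = S \ J := by
  intro A hA
  obtain ⟨S, hS, h⟩ := Finset.mem_image.1 (Finset.mem_filter.1 hA).1
  exact ⟨S, (Finset.mem_filter.1 hS).1, (Finset.mem_filter.1 hS).2, h.symm⟩

lemma minor2 {n : ℕ} (C : Finset (Finset (Fin n))) (I J : Finset (Fin n)) :
    ∀ S ∈ C, Disjoint S I → ∃ A ∈ Minor C I J, A ⊆ S \ J := by
  intro S hS hSI
  exact Pool.Agent.TRed.exists_min _ _
    (Finset.mem_image.2 ⟨S, Finset.mem_filter.2 ⟨hS, hSI⟩, rfl⟩)

/-- Fractional packings of an ideal clutter. -/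
lemma frac (n : ℕ) (C : Finset (Finset (Fin n))) (hC : Ideal C) :
    Pool.Agent.TRed.FracL (Pool.Agent.TRed.LC C) := by
  intro w s hw hs hcov
  have hfr := Pool.Agent.TQS.p_FRC Pool.Agent.TQS.p_LP1 Pool.Agent.TQS.p_LP2 (Fin n) C
    hC w s hw hs (by
      intro U hU
      apply hcov
      rintro ⟨E, hE, hEU⟩
      obtain ⟨e, he⟩ := hU E hE
      rw [Finset.mem_inter] at he
      exact (Finset.mem_compl.1 (hEU he.1)) he.2)
  obtain ⟨y, hy0, hys, hyl⟩ := hfr
  refine ⟨Finset (Fin n), inferInstance, fun E => E, fun E => if E ∈ C then y E else 0, ?_, ?_,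
    ?_, ?_⟩
  · intro E
    show 0 ≤ (if E ∈ C then y E else 0)
    split_ifs
    · exact hy0 E
    · exact le_refl 0
  · intro E hE
    by_cases h : E ∈ C
    · exact ⟨E, h, Finset.Subset.refl _⟩
    · exact absurd (if_neg h) hE
  · rw [Finset.sum_ite_mem, Finset.univ_inter, hys]
  · intro v
    have h := hyl v
    unfold Pool.Agent.TQS.cmb at h
    refine le_trans (le_of_eq ?_) h
    have h1 : ∀ E : Finset (Fin n), (if v ∈ E then (if E ∈ C then y E else 0) else 0) =
        (if E ∈ C then (if v ∈ E then y E else 0) else 0) := by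
      intro E
      split_ifs <;> rfl
    rw [Finset.sum_congr rfl (fun E _ => h1 E), Finset.sum_ite_mem, Finset.univ_inter,
      ← Finset.sum_filter]

/-- A counterexample with a member of size at most two gives a smaller counterexample. -/
lemma smaller (n : ℕ) (C : Finset (Finset (Fin n))) (hC : Cex C)
    (hS : ∃ S ∈ C, S.card ≤ 2) : ∃ m < n, ∃ D : Finset (Finset (Fin m)), Cex D := by
  classical
  obtain ⟨S, hS, hSc⟩ := hS
  have hne : ∅ ∉ C := fun h => hC.not_packs (Or.inl h)
  have hm : Pool.Agent.TRed.Mono (Pool.Agent.TRed.LC C) := Pool.Agent.TRed.LC.mono C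
  have hp : ∀ I J : Finset (Fin n), Disjoint I J → (I ∪ J).Nonempty →
      Pool.Agent.TRed.Pck (Pool.Agent.TRed.LC C) I J := fun I J h1 h2 =>
    (Pool.Agent.TRed.conv C I J h1 (Minor C I J) (minor1 C I J) (minor2 C I J)).1
      (hC.minors I J h1 h2)
  have hnp : ¬ Pool.Agent.TRed.Pck (Pool.Agent.TRed.LC C) ∅ ∅ := fun h =>
    hC.not_packs ((Pool.Agent.TRed.conv C ∅ ∅ (Finset.disjoint_empty_left _) C
      (fun A hA => ⟨A, hA, Finset.disjoint_empty_right _, by simp⟩)
      (fun A hA _ => ⟨A, hA, by simp⟩)).2 h)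
  have hF := frac n C hC.ideal
  have hcovL : ∀ T : Finset (Fin n), (∀ S ∈ C, (S ∩ T).Nonempty) ↔
      ¬ Pool.Agent.TRed.LC C Tᶜ := by
    intro T
    constructor
    · rintro h ⟨E, hE, hET⟩
      obtain ⟨e, he⟩ := h E hE
      rw [Finset.mem_inter] at he
      exact (Finset.mem_compl.1 (hET he.1)) he.2
    · intro h E hE
      by_contra hcon
      rw [Finset.not_nonempty_iff_eq_empty] at hcon
      apply h
      refine ⟨E, hE, fun e he => Finset.mem_compl.2 (fun heT => ?_)⟩
      have h1 : e ∈ E ∩ T := Finset.mem_inter.2 ⟨he, heT⟩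
      rw [hcon] at h1
      exact Finset.notMem_empty _ h1
  have huniv : ∀ S ∈ C, (S ∩ Finset.univ).Nonempty := by
    intro E hE
    rw [Finset.inter_univ, Finset.nonempty_iff_ne_empty]
    rintro rfl
    exact hne hE
  have hn3 : 3 ≤ n := by
    have h := hC.tau Finset.univ huniv
    rwa [Finset.card_univ, Fintype.card_fin] at h
  -- the covering number
  have hex : ∃ k, ∃ T : Finset (Fin n), (∀ S ∈ C, (S ∩ T).Nonempty) ∧ T.card = k :=
    ⟨_, Finset.univ, huniv, rfl⟩
  obtain ⟨T, hT, hTc⟩ := Nat.find_spec hex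
  have hmin := fun k hk => Nat.find_min hex (m := k) hk
  set k := Nat.find hex with hkdef
  have hk3 : 3 ≤ k := by
    rw [← hTc]
    exact hC.tau T hT
  have htau : Pool.Agent.TRed.TauGe (Pool.Agent.TRed.LC C) ∅ ∅ k := by
    intro X _ _ hX
    rw [Finset.empty_union]
    by_contra hcon
    exact hmin X.card hX ⟨X, (hcovL X).2 hcon, rfl⟩
  have hnu : ¬ Pool.Agent.TRed.NuGe (Pool.Agent.TRed.LC C) ∅ ∅ k := by
    intro h
    apply hnp
    intro j hj
    refine h.le ?_
    by_contra hcon
    have h1 := hj T (Finset.disjoint_empty_right _) (Finset.disjoint_empty_right _) (by omega)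
    rw [Finset.empty_union] at h1
    exact ((hcovL T).1 hT) h1
  rcases Nat.eq_or_lt_of_le hk3 with hk | hk
  · exfalso
    rw [← hk] at htau hnu
    exact Pool.Agent.TRed.three hm hp hF htau hnu S ⟨S, hS, Finset.Subset.refl _⟩ hSc
  · obtain ⟨R, hSR, -, hRc⟩ := Finset.exists_subsuperset_card_eq (Finset.subset_univ S) hSc
      (by rw [Finset.card_univ, Fintype.card_fin]; omega : 2 ≤ (Finset.univ : Finset (Fin n)).card)
    obtain ⟨x, y, hxy, hR⟩ := Finset.card_eq_two.1 hRc
    have hlive : Pool.Agent.TRed.LC C {x, y} := ⟨S, hS, hR ▸ hSR⟩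
    obtain ⟨j, hj⟩ : ∃ j, k = j + 1 := ⟨k - 1, by omega⟩
    rw [hj] at htau hnu
    obtain ⟨m, hmn, M, hM, hFM, hnM, hpM, hTM⟩ :=
      Pool.Agent.TRed.step hm hp hlive hxy hF j (by omega) htau hnu
    rw [Fintype.card_fin] at hmn
    set D0 : Finset (Finset (Fin m)) := Finset.univ.filter (fun U => M U) with hD0
    set D : Finset (Finset (Fin m)) := D0.filter (fun A => ∀ B ∈ D0, B ⊆ A → B = A) with hD
    have hLD : Pool.Agent.TRed.LC D = M := by
      funext U
      apply propext
      constructor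
      · rintro ⟨E, hE, hEU⟩
        exact hM _ _ hEU (Finset.mem_filter.1 (Finset.mem_filter.1 hE).1).2
      · intro hU
        obtain ⟨B, hB, hBU⟩ := Pool.Agent.TRed.exists_min D0 U
          (Finset.mem_filter.2 ⟨Finset.mem_univ _, hU⟩)
        exact ⟨B, hB, hBU⟩
    refine ⟨m, hmn, D, ⟨?_, ?_, ?_, ?_, ?_⟩⟩
    · intro A hA B hB hAB
      exact (Finset.mem_filter.1 hB).2 A (Finset.mem_filter.1 hA).1 hAB
    · exact Pool.Agent.TRed.ext_int D (by rw [hLD]; exact hFM)
    · intro h
      apply hnM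
      have h1 := (Pool.Agent.TRed.conv D ∅ ∅ (Finset.disjoint_empty_left _) D
        (fun A hA => ⟨A, hA, Finset.disjoint_empty_right _, by simp⟩)
        (fun A hA _ => ⟨A, hA, by simp⟩)).1 h
      rwa [hLD] at h1
    · intro I J hIJ hIJn
      refine (Pool.Agent.TRed.conv D I J hIJ (Minor D I J) (minor1 D I J) (minor2 D I J)).2 ?_
      rw [hLD]
      exact hpM I J hIJ hIJn
    · rintro ⟨⟨U, hU2, hU⟩, -⟩
      have hMU : ¬ M Uᶜ := by
        intro h
        rw [← hLD] at h
        obtain ⟨E, hE, hEU⟩ := h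
        obtain ⟨e, he⟩ := hU E hE
        rw [Finset.mem_inter] at he
        exact (Finset.mem_compl.1 (hEU he.1)) he.2
      apply hnM
      intro i hi
      have hi2 : i ≤ 2 := by
        by_contra hcon2
        have h1 := hi U (Finset.disjoint_empty_right _) (Finset.disjoint_empty_right _) (by omega)
        rw [Finset.empty_union] at h1
        exact hMU h1
      rcases Nat.lt_or_ge i 2 with h | h
      · rcases Nat.lt_or_ge i 1 with h0 | h0
        · have : i = 0 := by omega
          subst this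
          exact ⟨fun a => a.elim0, fun a => a.elim0, fun a => a.elim0, fun a => a.elim0,
            fun a => a.elim0⟩
        · have : i = 1 := by omega
          subst this
          have h1 := hi ∅ (Finset.disjoint_empty_right _) (Finset.disjoint_empty_right _)
            (by simp)
          refine ⟨fun _ => Finset.univ, fun _ => Finset.disjoint_empty_right _,
            fun _ => Finset.disjoint_empty_right _, fun a b hab => ?_, fun _ => ?_⟩
          · exact absurd (Subsingleton.elim a b) hab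
          · simpa using h1
      · have : i = 2 := by omega
        subst this
        exact hTM hi

/-- Every counterexample to Q1 gives a counterexample on at most as many elements, all of whose
members have at least three elements, and on fewer elements if it has a member with at most two
elements. -/
theorem result :
    ∀ (n : ℕ) (C : Finset (Finset (Fin n))), Cex C →
      ∃ m ≤ n, ∃ D : Finset (Finset (Fin m)), Cex D ∧ (∀ S ∈ D, 3 ≤ S.card) ∧
        ((∃ S ∈ C, S.card ≤ 2) → m < n) := by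
  intro n
  induction n using Nat.strong_induction_on with
  | _ n ih =>
  intro C hC
  by_cases hS : ∃ S ∈ C, S.card ≤ 2
  · obtain ⟨m, hmn, D, hD⟩ := smaller n C hC hS
    obtain ⟨m', hm', D', hD', h3, -⟩ := ih m hmn D hD
    exact ⟨m', by omega, D', hD', h3, fun _ => by omega⟩
  · refine ⟨n, le_refl n, C, hC, fun S hS' => ?_, fun h => absurd h hS⟩
    by_contra hcon
    exact hS ⟨S, hS', by omega⟩

end Pool.Agent.Results.MP_98b56a_co.PairFree
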