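import Pool.Agent.TQS.All

set_option autoImplicit false

namespace Pool.Agent.Results.MP_98b56a_co.RankThree

/-- The tau = 2 conjecture holds for all clutters whose members have at most three elements; more
precisely, such an ideal minimally non-packing clutter is `Q_6`. -/
theorem result :
    ∀ (n : ℕ) (C : Finset (Finset (Fin n))),
      (∀ A ∈ C, ∀ B ∈ C, A ⊆ B → A = B) →
      (∀ x ∈ Set.extremePoints ℝ
          {x : Fin n → ℝ | (∀ e, 0 ≤ x e) ∧ ∀ S ∈ C, (1 : ℝ) ≤ ∑ e ∈ S, x e},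
          ∀ e, ∃ z : ℤ, x e = (z : ℝ)) →
      (∀ S ∈ C, S.card ≤ 3) →
      ¬ (∅ ∈ C ∨ ∃ T : Finset (Fin n), (∀ S ∈ C, (S ∩ T).Nonempty) ∧
          ∃ P ⊆ C, (∀ A ∈ P, ∀ B ∈ P, A ≠ B → Disjoint A B) ∧ P.card = T.card) →
      (∀ I J : Finset (Fin n), Disjoint I J → (I ∪ J).Nonempty →
        ∀ M : Finset (Finset (Fin n)),
          M = ((C.filter (fun S => Disjoint S I)).image (fun S => S \ J)).filter
                (fun A => ∀ B ∈ (C.filter (fun S => Disjoint S I)).image (fun S => S \ J),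
                  B ⊆ A → B = A) →
          (∅ ∈ M ∨ ∃ T : Finset (Fin n), (∀ S ∈ M, (S ∩ T).Nonempty) ∧
            ∃ P ⊆ M, (∀ A ∈ P, ∀ B ∈ P, A ≠ B → Disjoint A B) ∧ P.card = T.card)) →
      (∃ a a' b b' c c' : Fin n, [a, a', b, b', c, c'].Nodup ∧
          (∀ v, v ∈ [a, a', b, b', c, c']) ∧
          C = {{a, b, c}, {a, b', c'}, {a', b, c'}, {a', b', c}}) ∧
        (∃ T : Finset (Fin n), T.card = 2 ∧ ∀ S ∈ C, (S ∩ T).Nonempty) ∧
        ∀ T : Finset (Fin n), (∀ S ∈ C, (S ∩ T).Nonempty) → 2 ≤ T.card := by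
  intro n C hanti hid h3 hnp hmin
  have hne : ∀ S ∈ C, S.Nonempty := by
    intro S hS
    rw [Finset.nonempty_iff_ne_empty]
    rintro rfl
    exact hnp (Or.inl hS)
  have hQ : Pool.Agent.TQS.HasQ6 C := by
    rcases Pool.Agent.TQS.main (Fin n) C h3 hid with h | h
    · exact absurd (Or.inr (Pool.Agent.TQS.p_MPK (Fin n) C h hne)) hnp
    · exact h
  obtain ⟨a, a', b, b', c, c', hnd, hC⟩ := hQ
  have hall : ∀ v, v ∈ [a, a', b, b', c, c'] := by
    by_contra hcon
    push Not at hcon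
    obtain ⟨v, hv⟩ := hcon
    obtain ⟨-, -, hq⟩ := Pool.Agent.TQS.p_QNP (Fin n) a a' b b' c c' hnd _ rfl
    apply hq
    have hv' : v ∈ (Finset.univ : Finset (Fin n)) \ {a, a', b, b', c, c'} := by
      simp only [Finset.mem_sdiff, Finset.mem_univ, true_and]
      intro hmem
      apply hv
      simpa using hmem
    refine hmin (Finset.univ \ {a, a', b, b', c, c'}) ∅ (Finset.disjoint_empty_right _)
      ⟨v, Finset.mem_union_left _ hv'⟩ _ ?_
    have hf : C.filter (fun S => Disjoint S (Finset.univ \ {a, a', b, b', c, c'})) =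
        {{a, b, c}, {a, b', c'}, {a', b, c'}, {a', b', c}} := by
      rw [← hC]
      apply Finset.filter_congr
      intro S _
      rw [Finset.disjoint_left]
      constructor
      · intro h x hx
        by_contra hx2
        exact h hx (Finset.mem_sdiff.mpr ⟨Finset.mem_univ _, hx2⟩)
      · intro h x hx hx2
        exact (Finset.mem_sdiff.mp hx2).2 (h hx)
    have hi : (C.filter (fun S => Disjoint S (Finset.univ \ {a, a', b, b', c, c'}))).image
        (fun S => S \ (∅ : Finset (Fin n))) =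
        {{a, b, c}, {a, b', c'}, {a', b, c'}, {a', b', c}} := by
      rw [← hf]
      simp
    rw [hi]
    symm
    apply Finset.filter_true_of_mem
    intro A hA B hB hBA
    rw [← hC] at hA hB
    exact hanti B (Finset.mem_filter.mp hB).1 A (Finset.mem_filter.mp hA).1 hBA
  have hCeq : C = {{a, b, c}, {a, b', c'}, {a', b, c'}, {a', b', c}} := by
    rw [← hC]
    symm
    apply Finset.filter_true_of_mem
    intro S _ x _
    have := hall x
    simpa using this
  obtain ⟨h1, h2, -⟩ := Pool.Agent.TQS.p_QNP (Fin n) a a' b b' c c' hnd C hCeq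
  exact ⟨⟨a, a', b, b', c, c', hnd, hall, hCeq⟩, h2, h1⟩

end Pool.Agent.Results.MP_98b56a_co.RankThree
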